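import Pool.Agent.Q117.LF.Row5

/-!
MP_a1f59e_nt (arithmetic progressions of twin primes): for every admissible difference `d` up to a constant times `(log X) ^ 2`, the average distance of almost twins,
there are progressions with difference `d` of CONSECUTIVE almost twins, with a prime and a product of two primes at any two places, in the right order of magnitude.
-/

set_option autoImplicit false

namespace Pool.Agent.Results.MP_a1f59e_nt.ConsecutiveProgressions

/-- all prime factors of `m` are `> z` (so `0` is not rough) -/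
def Rough (z : ℝ) (m : ℤ) : Prop := ∀ p : ℕ, p.Prime → (p : ℤ) ∣ m → z < p

/-- at most two prime factors (with multiplicity), all `> z` -/
def AtMostTwo (z : ℝ) (m : ℤ) : Prop := m.natAbs.primeFactorsList.length ≤ 2 ∧ Rough z m

/-- `m` is the first member of an almost twin pair -/
def Twin (z : ℝ) (m : ℤ) : Prop := Rough z m ∧ Rough z (m + 2)

/-- no prime divides one of the `2 l` numbers `r + j d`, `r + j d + 2`, `j < l`, for every `r` -/
def Admissible (l d : ℕ) : Prop := ∀ p : ℕ, p.Prime → ∃ r : ℤ, ∀ j : ℕ, j < l → ¬ (p : ℤ) ∣ r + j * d ∧ ¬ (p : ℤ) ∣ r + j * d + 2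

/-- the number of the residue classes modulo `p` containing one of the numbers `j d`, `j d + 2`, `j < l` -/
def omega (l d p : ℕ) : ℕ := ((Finset.range l).image (fun j => (j * d) % p) ∪ (Finset.range l).image (fun j => (j * d + 2) % p)).card

/-- the singular series of the `2 l` shifts, truncated at `y` -/
noncomputable def sing (y l d : ℕ) : ℝ := ∏ p ∈ (Finset.Icc 1 y).filter Nat.Prime, ((1 - (omega l d p : ℝ) / p) / (1 - 1 / (p : ℝ)) ^ (2 * l))

/-- the `n ∈ (X, 2X]` such that the almost twins at distance `≤ L` from `n` are exactly `n, n + d, ..., n + (l - 1) d`, `n + j₁ d + h₁` is prime and `n + j₂ d + h₂`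
has at most two prime factors, all `> X ^ (1/9)` -/
def Good (z X L : ℝ) (l d j₁ j₂ h₁ h₂ : ℕ) : Set ℕ :=
  {n : ℕ | X < n ∧ (n : ℝ) ≤ 2 * X ∧ (∀ m : ℤ, |((m - n : ℤ) : ℝ)| ≤ L → (Twin z m ↔ ∃ j : ℕ, j < l ∧ m = n + j * d)) ∧ (n + j₁ * d + h₁).Prime ∧
    AtMostTwo (X ^ (1 / 9 : ℝ)) ((n + j₂ * d + h₂ : ℕ) : ℤ)}

/-- the `2 l` shifts -/
def Sh (l d : ℕ) : Finset ℤ := (Finset.range l).image (fun j : ℕ => ((j * d : ℕ) : ℤ)) ∪ (Finset.range l).image (fun j : ℕ => ((j * d + 2 : ℕ) : ℤ))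

theorem mem_Sh {l d : ℕ} {e : ℤ} : e ∈ Sh l d ↔ ∃ j : ℕ, j < l ∧ (e = j * d ∨ e = j * d + 2) := by
  unfold Sh
  simp only [Finset.mem_union, Finset.mem_image, Finset.mem_range]
  constructor
  · rintro (⟨j, hj, rfl⟩ | ⟨j, hj, rfl⟩)
    · exact ⟨j, hj, Or.inl (by push_cast; rfl)⟩
    · exact ⟨j, hj, Or.inr (by push_cast; rfl)⟩
  · rintro ⟨j, hj, rfl | rfl⟩
    · exact Or.inl ⟨j, hj, by push_cast; rfl⟩
    · exact Or.inr ⟨j, hj, by push_cast; rfl⟩

theorem adm_Sh {l d : ℕ} (h : Admissible l d) : Pool.Agent.Q117.LF.AdmZ (Sh l d) := by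
  intro p hp
  obtain ⟨r, hr⟩ := h p hp
  refine ⟨r, fun e he => ?_⟩
  obtain ⟨j, hj, rfl | rfl⟩ := mem_Sh.1 he
  · exact (hr j hj).1
  · rw [← add_assoc]
    exact (hr j hj).2

/-- three numbers `e, e + 2, e + 4` are not all among the shifts of an admissible set -/
theorem no_three {l d : ℕ} (h : Admissible l d) {e : ℤ} (h0 : e ∈ Sh l d) (h2 : e + 2 ∈ Sh l d) (h4 : e + 4 ∈ Sh l d) : False := by
  obtain ⟨r, hr⟩ := adm_Sh h 3 Nat.prime_three
  have a := hr _ h0
  have b := hr _ h2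
  have c := hr _ h4
  push_cast at a b c
  omega

theorem card_Sh {l d : ℕ} (hd : 1 ≤ d) (h : Admissible l d) : (Sh l d).card = 2 * l := by
  unfold Sh
  have hd0 : d ≠ 0 := by omega
  rw [Finset.card_union_of_disjoint, Finset.card_image_of_injective, Finset.card_image_of_injective, Finset.card_range]
  · ring
  · intro a b hab
    have h1 : a * d + 2 = b * d + 2 := by
      have h0 : ((a * d + 2 : ℕ) : ℤ) = ((b * d + 2 : ℕ) : ℤ) := hab
      exact_mod_cast h0
    have h2 : a * d = b * d := by omega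
    exact Nat.eq_of_mul_eq_mul_right (by omega) h2
  · intro a b hab
    have h1 : a * d = b * d := by
      have h0 : ((a * d : ℕ) : ℤ) = ((b * d : ℕ) : ℤ) := hab
      exact_mod_cast h0
    exact Nat.eq_of_mul_eq_mul_right (by omega) h1
  · rw [Finset.disjoint_left]
    intro e he he'
    rw [Finset.mem_image] at he he'
    obtain ⟨i, hi, rfl⟩ := he
    obtain ⟨j, hj, hij⟩ := he'
    rw [Finset.mem_range] at hi hj
    -- `i d = j d + 2`, so `j d, j d + 2 = i d, i d + 2 = j d + 4` are shifts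
    apply no_three h (e := (j : ℤ) * d)
    · exact mem_Sh.2 ⟨j, hj, Or.inl rfl⟩
    · exact mem_Sh.2 ⟨j, hj, Or.inr rfl⟩
    · refine mem_Sh.2 ⟨i, hi, Or.inr ?_⟩
      push_cast at hij
      linarith

theorem om_Sh (l d p : ℕ) : ((Sh l d).image (fun e : ℤ => e % (p : ℤ))).card = omega l d p := by
  unfold Sh omega
  rw [Finset.image_union, Finset.image_image, Finset.image_image]
  have h1 : (Finset.range l).image ((fun e : ℤ => e % (p : ℤ)) ∘ fun j : ℕ => ((j * d : ℕ) : ℤ)) =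
      ((Finset.range l).image (fun j => (j * d) % p)).image (fun x : ℕ => (x : ℤ)) := by
    rw [Finset.image_image]
    apply Finset.image_congr
    intro j _
    simp
  have h2 : (Finset.range l).image ((fun e : ℤ => e % (p : ℤ)) ∘ fun j : ℕ => ((j * d + 2 : ℕ) : ℤ)) =
      ((Finset.range l).image (fun j => (j * d + 2) % p)).image (fun x : ℕ => (x : ℤ)) := by
    rw [Finset.image_image]
    apply Finset.image_congr
    intro j _
    simp
  rw [h1, h2, ← Finset.image_union, Finset.card_image_of_injective _ Nat.cast_injective]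

theorem result : ∀ l : ℕ, 1 ≤ l → ∃ t : ℕ, 1 ≤ t ∧ ∃ c : ℝ, 0 < c ∧ ∃ ν : ℝ, 0 < ν ∧ ∃ X0 : ℝ, ∀ X : ℝ, X0 ≤ X →
    ∀ d : ℕ, 1 ≤ d → (l : ℝ) * d ≤ ν * Real.log X ^ 2 → Admissible l d →
    ∀ j₁ j₂ h₁ h₂ : ℕ, j₁ < l → j₂ < l → (h₁ = 0 ∨ h₁ = 2) → (h₂ = 0 ∨ h₂ = 2) → (j₁ ≠ j₂ ∨ h₁ ≠ h₂) → ∀ y : ℕ, X ≤ y →
      c * (X / Real.log X ^ (2 * l) * sing y l d) ≤
        ((Good (X ^ (1 / (t : ℝ))) X (ν * Real.log X ^ 2) l d j₁ j₂ h₁ h₂).ncard : ℝ) := by
  intro l hl
  obtain ⟨t, ht, c, hc, ν, hν, X0, h⟩ := Pool.Agent.Q117.LF.fswS (2 * l) 1 (fun _ => {0, 2}) (fun γ => ⟨0, by decide⟩)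
  have hev : ∀ᶠ X : ℝ in Filter.atTop, ν * Real.log X ^ 2 + 2 ≤ X := by
    have h4 : Filter.Tendsto (fun X : ℝ => (Real.log X) ^ 2 / (1 * X + 0)) Filter.atTop (nhds 0) :=
      Real.tendsto_pow_log_div_mul_add_atTop 1 0 2 one_ne_zero
    have h5 := (h4.const_mul ν).eventually (gt_mem_nhds (show ν * 0 < 1 / 2 by norm_num))
    filter_upwards [h5, Filter.eventually_gt_atTop 4] with X g1 g2
    rw [one_mul, add_zero, ← mul_div_assoc, div_lt_iff₀ (by linarith)] at g1
    linarith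
  obtain ⟨X1, hX1⟩ := Filter.eventually_atTop.1 hev
  refine ⟨t, ht, c, hc, ν, hν, max (max X0 X1) 0, fun X hX d hd hdX ha j₁ j₂ h₁ h₂ hj₁ hj₂ e₁ e₂ hne y hy => ?_⟩
  have hX0 : X0 ≤ X := ((le_max_left _ _).trans (le_max_left _ _)).trans hX
  have hX2 := hX1 X (((le_max_right _ _).trans (le_max_left _ _)).trans hX)
  have hjd : ∀ j : ℕ, j < l → (j : ℝ) * d ≤ ν * Real.log X ^ 2 := by
    intro j hj
    refine le_trans ?_ hdX
    have : (j : ℝ) ≤ l := by exact_mod_cast hj.le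
    gcongr
  have m : ∀ j h : ℕ, j < l → (h = 0 ∨ h = 2) → ((j * d + h : ℕ) : ℤ) ∈ Sh l d := by
    intro j h hj hh
    refine mem_Sh.2 ⟨j, hj, ?_⟩
    rcases hh with rfl | rfl
    · left; push_cast; ring
    · right; push_cast; ring
  have hE : ∀ e ∈ Sh l d, 0 ≤ e ∧ (e : ℝ) ≤ X := by
    intro e he
    obtain ⟨j, hj, rfl | rfl⟩ := mem_Sh.1 he
    · refine ⟨by positivity, ?_⟩
      have := hjd j hj
      push_cast
      linarith
    · refine ⟨by positivity, ?_⟩
      have := hjd j hj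
      push_cast
      linarith
  have hne' : ((j₁ * d + h₁ : ℕ) : ℤ) ≠ ((j₂ * d + h₂ : ℕ) : ℤ) := by
    intro hcon
    have hcon' : j₁ * d + h₁ = j₂ * d + h₂ := by exact_mod_cast hcon
    have hz : ∀ i j : ℕ, i < l → j < l → i * d = j * d + 2 → False := by
      intro i j hi hj hij
      apply no_three ha (e := (j : ℤ) * d)
      · exact mem_Sh.2 ⟨j, hj, Or.inl rfl⟩
      · exact mem_Sh.2 ⟨j, hj, Or.inr rfl⟩
      · refine mem_Sh.2 ⟨i, hi, Or.inr ?_⟩
        have : ((i * d : ℕ) : ℤ) = ((j * d + 2 : ℕ) : ℤ) := by rw [hij]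
        push_cast at this
        linarith
    rcases e₁ with rfl | rfl <;> rcases e₂ with rfl | rfl
    · have : j₁ = j₂ := Nat.eq_of_mul_eq_mul_right (show 0 < d by omega) (by omega)
      rcases hne with h | h
      · exact h this
      · exact h rfl
    · exact hz j₁ j₂ hj₁ hj₂ (by omega)
    · exact hz j₂ j₁ hj₂ hj₁ (by omega)
    · have : j₁ = j₂ := Nat.eq_of_mul_eq_mul_right (show 0 < d by omega) (by omega)
      rcases hne with h | h
      · exact h this
      · exact h rfl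
  have hmain := h X hX0 (Sh l d) (card_Sh hd ha).le hE (adm_Sh ha) _ (m j₁ h₁ hj₁ e₁) _ (m j₂ h₂ hj₂ e₂) hne' y hy
  rw [card_Sh hd ha] at hmain
  have hsing : Pool.Agent.Q117.LF.sgF y (Sh l d) = sing y l d := by
    unfold Pool.Agent.Q117.LF.sgF sing
    apply Finset.prod_congr rfl
    intro p _
    rw [om_Sh, card_Sh hd ha]
  rw [hsing] at hmain
  refine hmain.trans ?_
  have hfin : (Good (X ^ (1 / (t : ℝ))) X (ν * Real.log X ^ 2) l d j₁ j₂ h₁ h₂).Finite := by
    apply Set.Finite.subset (Set.finite_Iic ⌊2 * X⌋₊)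
    rintro n ⟨-, h2, -⟩
    exact Nat.le_floor h2
  rw [Nat.cast_le]
  apply Set.ncard_le_ncard _ hfin
  rintro n ⟨g1, g2, g3, g4, g5, g6⟩
  refine ⟨g1, g2, fun k hk => ⟨fun hT => ?_, ?_⟩, ?_, ?_⟩
  · have hR : ∀ x : ℤ, Rough (X ^ (1 / (t : ℝ))) x → Pool.Agent.Q117.LF.Ro (X ^ (1 / (t : ℝ))) x := fun x hx => hx
    have hc2 : (({0, 2} : Finset ℤ)).card = 2 := by decide
    have h0 := g6 0 (k - n) (by rw [hc2]; exact hk) (by
      intro f hf
      have hf' : f ∈ ({0, 2} : Finset ℤ) := hf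
      simp only [Finset.mem_insert, Finset.mem_singleton] at hf'
      apply hR
      rcases hf' with rfl | rfl
      · have : (n : ℤ) + (k - n) + 0 = k := by ring
        rw [this]; exact hT.1
      · have : (n : ℤ) + (k - n) + 2 = k + 2 := by ring
        rw [this]; exact hT.2)
    have u0 : k - n ∈ Sh l d := by
      have := h0 0 (show (0 : ℤ) ∈ ({0, 2} : Finset ℤ) by decide)
      rwa [add_zero] at this
    have u2 : k - n + 2 ∈ Sh l d := h0 2 (show (2 : ℤ) ∈ ({0, 2} : Finset ℤ) by decide)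
    obtain ⟨j, hj, hj' | hj'⟩ := mem_Sh.1 u0
    · exact ⟨j, hj, by linarith⟩
    · exfalso
      apply no_three ha (e := (j : ℤ) * d)
      · exact mem_Sh.2 ⟨j, hj, Or.inl rfl⟩
      · exact mem_Sh.2 ⟨j, hj, Or.inr rfl⟩
      · have : (j : ℤ) * d + 4 = k - n + 2 := by linarith
        rw [this]; exact u2
  · rintro ⟨j, hj, rfl⟩
    constructor
    · have h0 : Rough _ _ := g5 (j * d) (mem_Sh.2 ⟨j, hj, Or.inl rfl⟩)
      exact h0
    · have h0 : Rough _ _ := g5 (j * d + 2) (mem_Sh.2 ⟨j, hj, Or.inr rfl⟩)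
      have e : (n : ℤ) + j * d + 2 = n + (j * d + 2) := by ring
      rw [e]; exact h0
  · have e : ((n : ℤ) + ((j₁ * d + h₁ : ℕ) : ℤ)).toNat = n + j₁ * d + h₁ := by
      have : (n : ℤ) + ((j₁ * d + h₁ : ℕ) : ℤ) = ((n + j₁ * d + h₁ : ℕ) : ℤ) := by push_cast; ring
      rw [this, Int.toNat_natCast]
    rw [← e]; exact g3
  · have e : ((n + j₂ * d + h₂ : ℕ) : ℤ) = (n : ℤ) + ((j₂ * d + h₂ : ℕ) : ℤ) := by push_cast; ring
    rw [e]; exact g4

end Pool.Agent.Results.MP_a1f59e_nt.ConsecutiveProgressions
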