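import Pool.Agent.Q106.UV.Fun3
import Pool.Agent.Q120.GM.Exists

/-!
# MP_a1f59e_nt: the numbers of progressions of tuples for every sequence of differences, in the sieved models

The sieved model of level `Q`: a random set `A` which contains the integers `n ≥ 2` coprime to `Q` independently with
probability `(Q / φ(Q)) / log n` (at most `1`), and no others (`IsModel μ (level Q) A`; `Q = 1` is Cramér's model).
For every finite number of lengths `l`, tuples `H` (twins: `H = {0, 2}`) and sequences of differences `d` and windows, the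
vectors of the deviations of the numbers of the `m` in the windows such that all `m + j d + h` (`j < l`, `h ∈ H`) are in `A`
from the predictions, divided by the square roots of `2 · prediction · log n`, almost surely approach the closed unit ball
and are dense in it, and the number of the `n ≤ x` for which the vector is near `v` is `x^(1 - |v|^2 + o(1))`.
-/

set_option autoImplicit false

namespace Pool.Agent.Results.MP_a1f59e_nt.CountsForAllDifferences

open Finset MeasureTheory ProbabilityTheory Filter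
open scoped Topology
open Pool.Agent.Q120.GM (IsModel level)

/-- The number of the progressions: the number of the `m`, `a ≤ m < b`, such that all `m + j d + h` (`j < l`, `h ∈ H`) are
in `A`. For `H = {0, 2}`: progressions of `l` twin pairs with difference `d`. -/
noncomputable def count (A : Set ℕ) (l : ℕ) (H : Finset ℕ) (d a b : ℕ) : ℝ :=
  ({m : ℕ | a ≤ m ∧ m < b ∧ ∀ j < l, ∀ h ∈ H, m + j * d + h ∈ A}.ncard : ℝ)

/-- The singular series of level `Q`: `(Q / φ(Q))^(l |H|)` times the proportion of the residues `m` modulo `Q` such that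
all `m + j d + h` are coprime to `Q`. -/
noncomputable def series (Q l : ℕ) (H : Finset ℕ) (d : ℕ) : ℝ :=
  (((range Q).filter (fun m => ∀ j < l, ∀ h ∈ H, (m + j * d + h).Coprime Q)).card : ℝ) / Q *
    ((Q : ℝ) / Nat.totient Q) ^ (l * H.card)

/-- The predicted number. -/
noncomputable def predicted (Q l : ℕ) (H : Finset ℕ) (d a b : ℕ) : ℝ :=
  series Q l H d * ∑ m ∈ Ico a b, ∏ j ∈ range l, ∏ h ∈ H, (Real.log ((m + j * d + h : ℕ) : ℝ))⁻¹

/-- The normalized deviation for the difference `d n` and the window `[a n, b n)`. -/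
noncomputable def deviation (A : Set ℕ) (Q l : ℕ) (H : Finset ℕ) (d a b : ℕ → ℕ) (n : ℕ) : ℝ :=
  (count A l H (d n) (a n) (b n) - predicted Q l H (d n) (a n) (b n)) /
    Real.sqrt (2 * predicted Q l H (d n) (a n) (b n) * Real.log n)

/-- The pattern: the numbers `j d + h`. -/
def shifts (l : ℕ) (H : Finset ℕ) (d : ℕ) : Finset ℕ := (range l ×ˢ H).image (fun x : ℕ × ℕ => x.1 * d + x.2)

/-- Admissible data: lengths `l i ≥ 1`, tuples `H i` with `0 ∈ H i`, and for every `n` differences `d n i` larger than the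
elements of `H i` with positive singular series and windows `[a n i, b n i)`. If the patterns for `(n, i)` and `(n', i')`
are equal, the windows are disjoint (`uniq`), `N n ≥ n` bounds all numbers, and the lengths of the windows are between
`M n ≥ (N n)^δ` and `(M n)^(3/2 - δ)`. -/
structure Data (Q : ℕ) {r : ℕ} (l : Fin r → ℕ) (H : Fin r → Finset ℕ) (d a b : ℕ → Fin r → ℕ) (N : ℕ → ℕ) (M : ℕ → ℝ)
    (δ : ℝ) : Prop where
  pos : 0 < δ
  len : ∀ i, 1 ≤ l i
  zero : ∀ i, 0 ∈ H i
  diff : ∀ n i, ∀ h ∈ H i, h < d n i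
  sing : ∀ n i, 0 < series Q (l i) (H i) (d n i)
  uniq : ∀ n n' i i', shifts (l i) (H i) (d n i) = shifts (l i') (H i') (d n' i') →
    (n = n' ∧ i = i') ∨ Disjoint (Ico (a n i) (b n i)) (Ico (a n' i') (b n' i'))
  grow : ∀ n, n ≤ N n
  bound : ∀ n i, b n i + l i * d n i ≤ N n
  win : ∀ n i, 3 ≤ a n i ∧ a n i ≤ b n i
  size : ∀ n, (N n : ℝ) ^ δ ≤ M n
  low : ∀ n i, M n ≤ (b n i : ℝ) - a n i
  high : ∀ n i, (b n i : ℝ) - a n i ≤ M n ^ (3 / 2 - δ)

/-- The law of a sequence of vectors: it approaches the closed unit ball, all points of the closed unit ball are limit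
points, and the number of the `n ≤ x` for which the vector is near `v`, `|v| < 1`, is `x^(1 - |v|^2 + o(1))`. -/
def Law {r : ℕ} (D : ℕ → Fin r → ℝ) : Prop :=
  (∀ ε > 0, ∀ᶠ n in atTop, ∑ i, D n i ^ 2 ≤ 1 + ε) ∧
  (∀ v : Fin r → ℝ, ∑ i, v i ^ 2 ≤ 1 → ∀ ε > 0, ∃ᶠ n in atTop, ∀ i, |D n i - v i| < ε) ∧
  ∀ v : Fin r → ℝ, ∑ i, v i ^ 2 < 1 → ∀ δ > 0, ∃ ε₀ > 0, ∀ ε, 0 < ε → ε ≤ ε₀ → ∀ᶠ x : ℕ in atTop,
    (x : ℝ) ^ (1 - ∑ i, v i ^ 2 - δ) ≤ ({n : ℕ | n ≤ x ∧ ∀ i, |D n i - v i| < ε}.ncard : ℝ) ∧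
    ({n : ℕ | n ≤ x ∧ ∀ i, |D n i - v i| < ε}.ncard : ℝ) ≤ (x : ℝ) ^ (1 - ∑ i, v i ^ 2 + δ)

/-- The functions. -/
def fn (d : ℕ) (x : ℕ × ℕ) (m : ℕ) : ℕ := m + x.1 * d + x.2

theorem fn_mono (d : ℕ) (x : ℕ × ℕ) : StrictMono (fn d x) := by
  intro m m' h
  unfold fn
  omega

theorem fn_inj {d m : ℕ} {x y : ℕ × ℕ} (hx : x.2 < d) (hy : y.2 < d) (h : fn d x m = fn d y m) : x = y := by
  unfold fn at h
  have h1 : x.1 * d + x.2 = y.1 * d + y.2 := by omega
  have h2 : (x.1 * d + x.2) / d = x.1 := by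
    rw [mul_comm, Nat.mul_add_div (by omega), Nat.div_eq_of_lt hx, add_zero]
  have h3 : (y.1 * d + y.2) / d = y.1 := by
    rw [mul_comm, Nat.mul_add_div (by omega), Nat.div_eq_of_lt hy, add_zero]
  have h4 : x.1 = y.1 := by rw [← h2, ← h3, h1]
  have h5 : x.2 = y.2 := by
    rw [h4] at h1
    omega
  exact Prod.ext h4 h5

theorem mem_pat {l : ℕ} {H : Finset ℕ} {d m x : ℕ} :
    x ∈ Pool.Agent.Q106.UV.ft (range l ×ˢ H) (fn d) m ↔ ∃ g ∈ shifts l H d, m + g = x := by
  rw [Pool.Agent.Q106.UV.mem_ft]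
  unfold shifts fn
  constructor
  · rintro ⟨s, hs, e⟩
    exact ⟨s.1 * d + s.2, mem_image_of_mem (fun x : ℕ × ℕ => x.1 * d + x.2) hs, by rw [← add_assoc]; exact e⟩
  · rintro ⟨g, hg, e⟩
    obtain ⟨s, hs, rfl⟩ := mem_image.1 hg
    exact ⟨s, hs, by rw [← e]; ring⟩

theorem zero_mem {l : ℕ} {H : Finset ℕ} (d : ℕ) (hl : 1 ≤ l) (h0 : 0 ∈ H) : 0 ∈ shifts l H d :=
  mem_image.2 ⟨(0, 0), mem_product.2 ⟨mem_range.2 hl, h0⟩, by simp⟩

theorem fn_eq {l l' : ℕ} {H H' : Finset ℕ} {d d' m m' : ℕ} (hl : 1 ≤ l) (hl' : 1 ≤ l') (h0 : 0 ∈ H) (h0' : 0 ∈ H')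
    (h : Pool.Agent.Q106.UV.ft (range l ×ˢ H) (fn d) m = Pool.Agent.Q106.UV.ft (range l' ×ˢ H') (fn d') m') :
    m = m' ∧ shifts l H d = shifts l' H' d' := by
  have e1 : m ∈ Pool.Agent.Q106.UV.ft (range l' ×ˢ H') (fn d') m' := by
    rw [← h]
    exact mem_pat.2 ⟨0, zero_mem d hl h0, rfl⟩
  have e2 : m' ∈ Pool.Agent.Q106.UV.ft (range l ×ˢ H) (fn d) m := by
    rw [h]
    exact mem_pat.2 ⟨0, zero_mem d' hl' h0', rfl⟩
  obtain ⟨g1, _, g2⟩ := mem_pat.1 e1
  obtain ⟨g3, _, g4⟩ := mem_pat.1 e2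
  have e3 : m = m' := by omega
  subst e3
  refine ⟨rfl, ?_⟩
  ext g
  constructor
  · intro hg
    have h1 : m + g ∈ Pool.Agent.Q106.UV.ft (range l' ×ˢ H') (fn d') m := by
      rw [← h]
      exact mem_pat.2 ⟨g, hg, rfl⟩
    obtain ⟨g', hg', e⟩ := mem_pat.1 h1
    have : g' = g := by omega
    rwa [this] at hg'
  · intro hg
    have h1 : m + g ∈ Pool.Agent.Q106.UV.ft (range l ×ˢ H) (fn d) m := by
      rw [h]
      exact mem_pat.2 ⟨g, hg, rfl⟩
    obtain ⟨g', hg', e⟩ := mem_pat.1 h1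
    have : g' = g := by omega
    rwa [this] at hg'

/-- For `l ≥ 2` the pattern determines the difference. -/
theorem shifts_inj {l : ℕ} {H : Finset ℕ} {d d' : ℕ} (hl : 2 ≤ l) (h0 : 0 ∈ H) (hd : ∀ h ∈ H, h < d)
    (hd' : ∀ h ∈ H, h < d') (h : shifts l H d = shifts l H d') : d = d' := by
  have key : ∀ u v : ℕ, (∀ h ∈ H, h < u) → shifts l H u = shifts l H v → v ≤ u := by
    intro u v hu huv
    have h1 : u ∈ shifts l H v := by
      rw [← huv]
      exact mem_image.2 ⟨(1, 0), mem_product.2 ⟨mem_range.2 hl, h0⟩, by simp⟩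
    obtain ⟨⟨j, g⟩, hx, e⟩ := mem_image.1 h1
    have hg := (mem_product.1 hx).2
    simp only at e hg
    rcases Nat.eq_zero_or_pos j with hj | hj
    · have := hu g hg
      rw [hj, zero_mul, zero_add] at e
      omega
    · have : v ≤ j * v := Nat.le_mul_of_pos_left v hj
      omega
  exact le_antisymm (key d' d hd' h.symm) (key d d' hd h)

theorem ser_eq (Q l : ℕ) (H : Finset ℕ) (d : ℕ) : Pool.Agent.Q106.UV.fser Q (range l ×ˢ H) (fn d) = series Q l H d := by
  unfold Pool.Agent.Q106.UV.fser series Pool.Agent.Q106.UV.fcnt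
  have e1 : (range Q).filter (Pool.Agent.Q106.UV.fcop Q (range l ×ˢ H) (fn d)) =
      (range Q).filter (fun m => ∀ j < l, ∀ h ∈ H, (m + j * d + h).Coprime Q) := by
    refine filter_congr (fun m _ => ?_)
    unfold Pool.Agent.Q106.UV.fcop fn
    constructor
    · intro h j hj g hg
      exact h (j, g) (mem_product.2 ⟨mem_range.2 hj, hg⟩)
    · intro h s hs
      rw [mem_product, mem_range] at hs
      exact h s.1 hs.1 s.2 hs.2
  rw [e1, card_product, card_range]

/-- **The law for every sequence of differences and windows.** -/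
theorem general {Ω : Type} [MeasurableSpace Ω] {μ : Measure Ω} [IsProbabilityMeasure μ] {A : Ω → Set ℕ} {Q : ℕ}
    (hQ : 1 ≤ Q) (hA : IsModel μ (level Q) A) {r : ℕ} (hr : 1 ≤ r) {l : Fin r → ℕ} {H : Fin r → Finset ℕ}
    {d a b : ℕ → Fin r → ℕ} {N : ℕ → ℕ} {M : ℕ → ℝ} {δ : ℝ} (hD : Data Q l H d a b N M δ) :
    ∀ᵐ ω ∂μ, Law (fun n i => deviation (A ω) Q (l i) (H i) (fun n => d n i) (fun n => a n i) (fun n => b n i) n) := by
  obtain ⟨δ', hδ'⟩ : ∃ δ', δ' = min δ (1 / 2) := ⟨_, rfl⟩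
  have h0 : 0 < δ' := by rw [hδ']; exact lt_min hD.pos (by norm_num)
  have h1 : δ' ≤ 1 / 2 := by rw [hδ']; exact min_le_right _ _
  have h2 : δ' ≤ δ := by rw [hδ']; exact min_le_left _ _
  have hi : Fin r := ⟨0, hr⟩
  have hN1 : ∀ n, 1 ≤ N n := by
    intro n
    have h3 := hD.bound n hi
    have h4 := hD.win n hi
    omega
  have hM1 : ∀ n, 1 ≤ M n := by
    intro n
    refine (Real.one_le_rpow ?_ hD.pos.le).trans (hD.size n)
    exact_mod_cast hN1 n
  have hG : Pool.Agent.Q106.UV.FD Q (fun i : Fin r => range (l i) ×ˢ H i) (fun n i => fn (d n i)) N a b M δ' :=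
    { ne := fun i => ⟨(0, 0), mem_product.2 ⟨mem_range.2 (hD.len i), hD.zero i⟩⟩
      mono := fun n i s _ => fn_mono _ s
      per := by
        intro n i s _ m
        have h3 : m + Q ≡ m [MOD Q] := by
          unfold Nat.ModEq
          rw [Nat.add_mod_right]
        exact (h3.add_right _).add_right _
      dist := by
        intro n i m _ _ s hs s' hs' h
        rw [Finset.mem_coe, mem_product] at hs hs'
        exact fn_inj (hD.diff n i _ hs.2) (hD.diff n i _ hs'.2) h
      grow := hD.grow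
      bd := by
        intro n i s hs m hm
        rw [mem_product, mem_range] at hs
        have h3 := hD.bound n i
        have h4 := hD.diff n i _ hs.2
        have h5 : (s.1 + 1) * d n i ≤ l i * d n i := Nat.mul_le_mul_right _ hs.1
        unfold fn
        have h6 : (s.1 + 1) * d n i = s.1 * d n i + d n i := by ring
        omega
      sing := fun n i => by
        rw [ser_eq]
        exact hD.sing n i
      win := hD.win
      size := fun n => (Real.rpow_le_rpow_of_exponent_le (by exact_mod_cast hN1 n) h2).trans (hD.size n)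
      low := hD.low
      high := fun n i => (hD.high n i).trans (Real.rpow_le_rpow_of_exponent_le (hM1 n) (by linarith))
      uniq := by
        intro n i i' m m' hm1 hm2 hm1' hm2' h
        obtain ⟨e1, e2⟩ := fn_eq (hD.len i) (hD.len i') (hD.zero i) (hD.zero i') h
        rcases hD.uniq n n i i' e2 with h3 | h3
        · exact h3.2
        · exfalso
          subst e1
          exact Finset.disjoint_left.1 h3 (mem_Ico.2 ⟨hm1, hm2⟩) (mem_Ico.2 ⟨hm1', hm2'⟩)
      ov := by
        intro n n' hlt _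
        have h3 : Pool.Agent.Q106.UV.ovc (fun i : Fin r => range (l i) ×ˢ H i) (fun n i => fn (d n i)) a b n n' = 0 := by
          refine Pool.Agent.Q106.UV.ovc_zero (fun i m i' m' hm1 hm2 hm1' hm2' h => ?_)
          obtain ⟨e1, e2⟩ := fn_eq (hD.len i) (hD.len i') (hD.zero i) (hD.zero i') h
          rcases hD.uniq n n' i i' e2 with h4 | h4
          · omega
          · subst e1
            exact Finset.disjoint_left.1 h4 (mem_Ico.2 ⟨hm1, hm2⟩) (mem_Ico.2 ⟨hm1', hm2'⟩)
        rw [h3, Nat.cast_zero, zero_pow (by norm_num), zero_mul]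
        have h4 := hM1 n
        have h5 := hM1 n'
        positivity }
  have hlaw := Pool.Agent.Q106.UV.f_law hA hG hQ h0 h1
  refine hlaw.mono (fun ω hω => ?_)
  have hfun : (fun n i => deviation (A ω) Q (l i) (H i) (fun n => d n i) (fun n => a n i) (fun n => b n i) n) =
      Pool.Agent.Q106.UV.fD Q (A ω) (fun i : Fin r => range (l i) ×ˢ H i) (fun n i => fn (d n i)) a b := by
    funext n i
    have e1 : count (A ω) (l i) (H i) (d n i) (a n i) (b n i) =
        Pool.Agent.Q106.UV.fN (A ω) (range (l i) ×ˢ H i) (fn (d n i)) (a n i) (b n i) := by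
      unfold count Pool.Agent.Q106.UV.fN
      congr 1
      congr 1
      ext m
      constructor
      · rintro ⟨h3, h4, h5⟩
        refine ⟨h3, h4, fun s hs => ?_⟩
        rw [mem_product, mem_range] at hs
        exact h5 s.1 hs.1 s.2 hs.2
      · rintro ⟨h3, h4, h5⟩
        exact ⟨h3, h4, fun j hj h hh => h5 (j, h) (mem_product.2 ⟨mem_range.2 hj, hh⟩)⟩
    have e2 : predicted Q (l i) (H i) (d n i) (a n i) (b n i) =
        Pool.Agent.Q106.UV.fex Q (range (l i) ×ˢ H i) (fn (d n i)) (a n i) (b n i) := by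
      unfold predicted Pool.Agent.Q106.UV.fex
      rw [ser_eq]
      congr 1
      refine sum_congr rfl (fun m _ => ?_)
      unfold Pool.Agent.Q106.UV.fw
      rw [prod_product]
      rfl
    unfold deviation Pool.Agent.Q106.UV.fD
    rw [e1, e2]
  rw [hfun]
  exact hω

/-- **Result.** The models exist, for `l ≥ 2` different differences have different patterns, and for EVERY admissible
sequence of differences and windows the law holds almost surely. -/
theorem result (Q : ℕ) (hQ : 1 ≤ Q) :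
    (∃ (Ω : Type) (_ : MeasurableSpace Ω) (μ : Measure Ω) (_ : IsProbabilityMeasure μ) (A : Ω → Set ℕ),
      IsModel μ (level Q) A) ∧
    (∀ (l : ℕ) (H : Finset ℕ) (d d' : ℕ), 2 ≤ l → 0 ∈ H → (∀ h ∈ H, h < d) → (∀ h ∈ H, h < d') →
      shifts l H d = shifts l H d' → d = d') ∧
    ∀ (Ω : Type) (_ : MeasurableSpace Ω) (μ : Measure Ω) (_ : IsProbabilityMeasure μ) (A : Ω → Set ℕ),
      IsModel μ (level Q) A → ∀ (r : ℕ), 1 ≤ r → ∀ (l : Fin r → ℕ) (H : Fin r → Finset ℕ) (d a b : ℕ → Fin r → ℕ)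
        (N : ℕ → ℕ) (M : ℕ → ℝ) (δ : ℝ), Data Q l H d a b N M δ →
        ∀ᵐ ω ∂μ, Law (fun n i => deviation (A ω) Q (l i) (H i) (fun n => d n i) (fun n => a n i) (fun n => b n i) n) := by
  refine ⟨⟨ℕ → Bool, inferInstance, Pool.Agent.Q120.GM.prodMeasure (level Q), inferInstance,
    Pool.Agent.Q120.GM.trueSet, Pool.Agent.Q120.GM.isModel (level Q) (fun n => Pool.Agent.Q120.GM.level_nonneg Q n)
      (fun n => Pool.Agent.Q120.GM.level_le_one Q n)⟩, fun l H d d' hl h0 hd hd' h => shifts_inj hl h0 hd hd' h, ?_⟩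
  intro Ω _ μ _ A hA r hr l H d a b N M δ hD
  exact general hQ hA hr hD

end Pool.Agent.Results.MP_a1f59e_nt.CountsForAllDifferences
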