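import Pool.Agent.Q120.GM.ProgLow
import Pool.Agent.Q120.GM.Exists

/-!
# The longest arithmetic progressions of twin primes and tuples in the sieved models of the primes

`Q` is the level: the random set contains each `n` coprime to `Q` independently with
probability `min(1, (Q/φ(Q))/log n)`, and no other `n`. For `Q = 1` this is the model of Cramér.

Almost surely, for all finite `H` with `k ≥ 1` elements such that `r + H` is coprime to `Q` for some `r`:
if `L(x)` is the length of the longest progression `n, n + d, …` (`n, d ≤ x`, `d` larger than the elements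
of `H`) such that all translates of `H` by its terms are contained in the random set, then
`2 log x / (k L(x)) = log log x - log (Q/φ(Q)) + o(1)`.
For `k ≤ 2`, so for twin primes, `H = {0, 2}`, all differences `d ≥ 1` are allowed.
-/

set_option autoImplicit false

namespace Pool.Agent.Results.MP_a1f59e_nt.LongestProgressions

open MeasureTheory Filter Pool.Agent.Q120.GM

/-- The translates of `H` by the `l` terms `n + i d` are contained in `S`. -/
def Progression (S : Set ℕ) (H : Finset ℕ) (n d l : ℕ) : Prop := ∀ i < l, ∀ h ∈ H, n + i * d + h ∈ S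

/-- The law of the longest progressions. -/
structure Law (S : Set ℕ) (Q : ℕ) (H : Finset ℕ) : Prop where
  upper : ∀ ε : ℝ, 0 < ε → ∀ᶠ x : ℕ in atTop, ∀ n d l : ℕ, n ≤ x → 1 ≤ d → d ≤ x →
    ((∀ h ∈ H, h < d) ∨ H.card ≤ 2) → Progression S H n d l →
    (H.card : ℝ) * l * (Real.log (Real.log x) - Real.log ((Q : ℝ) / Nat.totient Q) - ε) ≤ 2 * Real.log x
  lower : ∀ ε : ℝ, 0 < ε → ∀ᶠ x : ℕ in atTop, ∃ n d l : ℕ, (∀ h ∈ H, h < d) ∧ n + l * d ≤ x ∧
    Progression S H n d l ∧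
    2 * Real.log x ≤ (H.card : ℝ) * l * (Real.log (Real.log x) - Real.log ((Q : ℝ) / Nat.totient Q) + ε)

theorem law {Ω : Type*} [MeasurableSpace Ω] {μ : Measure Ω} [IsProbabilityMeasure μ] {A : Ω → Set ℕ} {Q : ℕ}
    (hA : IsModel μ (level Q) A) (hQ : 1 ≤ Q) {H : Finset ℕ} (hH : H.Nonempty) {r : ℕ}
    (hr : ∀ h ∈ H, (r + h).Coprime Q) : ∀ᵐ ω ∂μ, Law (A ω) Q H := by
  have small : ∀ δ : ℝ, 0 < δ → ∃ j : ℕ, 1 / ((j : ℝ) + 2) ≤ δ := by
    intro δ hδ
    obtain ⟨j, hj⟩ := exists_nat_one_div_lt hδ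
    refine ⟨j, le_trans (one_div_le_one_div_of_le (by positivity) (by linarith)) hj.le⟩
  have h1 : ∀ᵐ ω ∂μ, ∀ j : ℕ, ∀ᶠ x : ℕ in atTop, ∀ n d l : ℕ, (1 ≤ d ∧ ∀ h ∈ H, h < d) → n ≤ x → d ≤ x →
      (∀ i < l, ∀ h ∈ H, n + i * d + h ∈ A ω) →
      (H.card : ℝ) * l ≤ 2 * GG (-Real.log (qq Q) - 1 / ((j : ℝ) + 2)) (Real.log x) :=
    ae_all_iff.2 (fun j => prog_upper_gen hA hH _ (fun d hd => hd.1) (up_large hA hQ hH (by positivity)))
  have h1' : ∀ᵐ ω ∂μ, ∀ j : ℕ, H.card ≤ 2 → ∀ᶠ x : ℕ in atTop, ∀ n d l : ℕ, (1 ≤ d ∧ d ≤ H.sup id) → n ≤ x → d ≤ x →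
      (∀ i < l, ∀ h ∈ H, n + i * d + h ∈ A ω) →
      (H.card : ℝ) * l ≤ 2 * GG (-Real.log (qq Q) - 1 / ((j : ℝ) + 2)) (Real.log x) := by
    rw [ae_all_iff]
    intro j
    by_cases hk : H.card ≤ 2
    · filter_upwards [prog_upper_gen hA hH _ (fun d hd => hd.1)
        (up_small hA hQ hH hk (H.sup id) (show (0 : ℝ) < 1 / ((j : ℝ) + 2) by positivity))] with ω hω _
      exact hω
    · filter_upwards with ω h
      exact absurd h hk
  have h2 : ∀ᵐ ω ∂μ, ∀ j : ℕ, ∀ᶠ x : ℕ in atTop, ∃ n d l : ℕ, (∀ h ∈ H, h < d) ∧ n + l * d ≤ x ∧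
      (∀ i < l, ∀ h ∈ H, n + i * d + h ∈ A ω) ∧
      2 * GG (-Real.log (qq Q) + 1 / ((j : ℝ) + 2)) (Real.log x) ≤ H.card * l :=
    ae_all_iff.2 (fun j => prog_lower hA hQ hH hr (by positivity))
  have hll : ∀ c : ℝ, ∀ᶠ x : ℕ in atTop, 0 < Real.log (Real.log x) + c := by
    intro c
    filter_upwards [Pool.Agent.Q120.AD.hl.eventually (loglog (c := c) 1)] with x hx
    linarith
  have key : ∀ c L : ℝ, 0 < Real.log L + c → GG c L * (Real.log L + c) = L := by
    intro c L h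
    unfold GG
    field_simp
  filter_upwards [h1, h1', h2] with ω g1 g1' g2
  refine ⟨?_, ?_⟩
  · intro ε hε
    obtain ⟨j, hj⟩ := small ε hε
    obtain ⟨c, hc⟩ : ∃ c, c = -Real.log (qq Q) - 1 / ((j : ℝ) + 2) := ⟨_, rfl⟩
    have g3 : ∀ᶠ x : ℕ in atTop, ∀ n d l : ℕ, n ≤ x → 1 ≤ d → d ≤ x →
        ((∀ h ∈ H, h < d) ∨ H.card ≤ 2) → Progression (A ω) H n d l →
        (H.card : ℝ) * l ≤ 2 * GG c (Real.log x) := by
      by_cases hk : H.card ≤ 2
      · filter_upwards [g1 j, g1' j hk] with x e1 e2 n d l hn hd hdx _ hp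
        rw [hc]
        by_cases h : ∀ h ∈ H, h < d
        · exact e1 n d l ⟨hd, h⟩ hn hdx hp
        · push Not at h
          obtain ⟨h, hh, hdh⟩ := h
          exact e2 n d l ⟨hd, hdh.trans (Finset.le_sup (f := id) hh)⟩ hn hdx hp
      · filter_upwards [g1 j] with x e1 n d l hn hd hdx h hp
        rw [hc]
        exact e1 n d l ⟨hd, h.resolve_right hk⟩ hn hdx hp
    filter_upwards [g3, hll c] with x h5 h6 n d l hn hd hdx h hp
    have h7 := h5 n d l hn hd hdx h hp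
    have h8 : (H.card : ℝ) * l * (Real.log (Real.log x) + c) ≤ 2 * Real.log x := by
      calc (H.card : ℝ) * l * (Real.log (Real.log x) + c) ≤ 2 * GG c (Real.log x) * (Real.log (Real.log x) + c) :=
            mul_le_mul_of_nonneg_right h7 h6.le
        _ = 2 * (GG c (Real.log x) * (Real.log (Real.log x) + c)) := by ring
        _ = _ := by rw [key c _ h6]
    refine le_trans ?_ h8
    refine mul_le_mul_of_nonneg_left ?_ (by positivity)
    rw [hc]
    unfold qq
    linarith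
  · intro ε hε
    obtain ⟨j, hj⟩ := small ε hε
    obtain ⟨c, hc⟩ : ∃ c, c = -Real.log (qq Q) + 1 / ((j : ℝ) + 2) := ⟨_, rfl⟩
    filter_upwards [g2 j, hll c] with x h5 h6
    obtain ⟨n, d, l, e1, e2, e3, e4⟩ := h5
    refine ⟨n, d, l, e1, e2, e3, ?_⟩
    rw [← hc] at e4
    have h8 : 2 * Real.log x ≤ (H.card : ℝ) * l * (Real.log (Real.log x) + c) := by
      calc 2 * Real.log x = 2 * (GG c (Real.log x) * (Real.log (Real.log x) + c)) := by rw [key c _ h6]
        _ = 2 * GG c (Real.log x) * (Real.log (Real.log x) + c) := by ring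
        _ ≤ _ := mul_le_mul_of_nonneg_right e4 h6.le
    refine h8.trans ?_
    refine mul_le_mul_of_nonneg_left ?_ (by positivity)
    rw [hc]
    unfold qq
    linarith

/-- **Existence of the models; twin primes are admissible; the law for all tuples.** -/
theorem result : (∀ Q : ℕ, IsModel (prodMeasure (level Q)) (level Q) (trueSet (ι := ℕ))) ∧
    (∀ Q : ℕ, 1 ≤ Q → ∃ r : ℕ, ∀ h ∈ ({0, 2} : Finset ℕ), (r + h).Coprime Q) ∧
    ∀ (Ω : Type) (_ : MeasurableSpace Ω) (μ : Measure Ω) (_ : IsProbabilityMeasure μ) (A : Ω → Set ℕ) (Q : ℕ),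
      1 ≤ Q → IsModel μ (level Q) A → ∀ᵐ ω ∂μ, ∀ H : Finset ℕ, H.Nonempty →
        (∃ r : ℕ, ∀ h ∈ H, (r + h).Coprime Q) → Law (A ω) Q H := by
  refine ⟨fun Q => isModel (level Q) (level_nonneg Q) (level_le_one Q), ?_, ?_⟩
  · intro Q hQ
    refine ⟨Q - 1, fun h hh => ?_⟩
    rw [Finset.mem_insert, Finset.mem_singleton] at hh
    rcases hh with rfl | rfl
    · rw [add_zero, Nat.coprime_iff_gcd_eq_one]
      have h1 : Nat.gcd (Q - 1) Q ∣ Q - 1 := Nat.gcd_dvd_left _ _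
      have h2 : Nat.gcd (Q - 1) Q ∣ Q := Nat.gcd_dvd_right _ _
      have h3 : Nat.gcd (Q - 1) Q ∣ Q - 1 + 1 := by rw [Nat.sub_add_cancel hQ]; exact h2
      exact Nat.dvd_one.1 ((Nat.dvd_add_right h1).1 h3)
    · have h1 : Q - 1 + 2 = Q + 1 := by omega
      rw [h1]
      exact Nat.coprime_self_add_left.2 (Nat.coprime_one_left Q)
  · intro Ω _ μ _ A Q hQ hA
    rw [ae_all_iff]
    intro H
    by_cases h : H.Nonempty ∧ ∃ r : ℕ, ∀ h ∈ H, (r + h).Coprime Q
    · obtain ⟨h1, r, hr⟩ := h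
      filter_upwards [law hA hQ h1 hr] with ω hω _ _
      exact hω
    · filter_upwards with ω u v
      exact absurd ⟨u, v⟩ h

end Pool.Agent.Results.MP_a1f59e_nt.LongestProgressions
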