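import Pool.Agent.Q253.Thin.AP

/-!
# Progressions of primes `p` such that all `p + 2` are prime, or all `(p + 2) / q` are prime for one prime `q`

By Green-Tao type theorems the Chen primes (`p + 2` prime or a product of two primes) contain arithmetic progressions
of every length. Here the small prime factors of the numbers `p + 2` are under control: at every scale and in
every window there is a progression of primes `p` for which all `p + 2` are prime, or one for which all `p + 2` have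
THE SAME smaller prime factor `q`, which belongs to a fixed set with `O((log log x) ^ 2)` elements up to `x`; and the
progressions are as narrow as a power of the logarithm (times `q`).

Libraries: `Y840.CT.GenF` (Chen's theorem in windows), `Y843.HS.Top` (Szemerédi's theorem relative to arbitrary
sifted sets, with narrow progressions), `Y151.HS.FLC` (fundamental lemma in residue classes), all starting files.
-/

set_option autoImplicit false

namespace Pool.Agent.Results.MP_a1f59e_nt.SameSmallFactor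

open Finset Filter
open Pool.Agent.Y840.CT Pool.Agent.Q253.Thin

/-- There are a set `Q` of primes and `C > 0` such that `Q` has at most `C (log log x) ^ 2` elements up to `x` for all
`x ≥ 16`, and for every `l` and `θ > 0` there are `D`, `N₀` such that for all `N ≥ N₀` and `0 ≤ u < v ≤ N` with
`v - u ≥ θ N` at least one of the following holds:

(1) there are `a` and `1 ≤ b ≤ log ^ D N` such that all `a + k b`, `0 ≤ k < l`, are in `(u, v]` and all `a + k b`,
`a + k b + 2` are prime;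

(2) there are `q ∈ Q` with `N ^ (1/9) < q`, `q ^ 2 ≤ N + 2`, and `a` and `1 ≤ d ≤ log ^ D N` such that, with `b = q d`, all
`a + k b`, `0 ≤ k < l`, are primes in `(u, v]`, and all `(a + k b + 2) / q` are primes `≥ q` (which form a progression with
the difference `d`). -/
theorem result : ∃ (Q : Set ℕ) (C : ℝ), 0 < C ∧ (∀ q ∈ Q, q.Prime) ∧
    (∀ x : ℕ, 16 ≤ x → ((Q ∩ Set.Iic x).ncard : ℝ) ≤ C * Real.log (Real.log x) ^ 2) ∧
    ∀ (l : ℕ) (θ : ℝ), 0 < θ → ∃ D N₀ : ℕ, ∀ N : ℕ, N₀ ≤ N → ∀ u v : ℕ, v ≤ N → θ * N ≤ (v : ℝ) - u →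
      (∃ a b : ℕ, 1 ≤ b ∧ (b : ℝ) ≤ Real.log N ^ D ∧ ∀ k < l, u < a + k * b ∧ a + k * b ≤ v ∧
        (a + k * b).Prime ∧ (a + k * b + 2).Prime) ∨
      ∃ q ∈ Q, (N : ℝ) ^ (1 / 9 : ℝ) < q ∧ q ^ 2 ≤ N + 2 ∧
        ∃ a d : ℕ, 1 ≤ d ∧ (d : ℝ) ≤ Real.log N ^ D ∧ ∀ k < l, u < a + k * (q * d) ∧ a + k * (q * d) ≤ v ∧
          (a + k * (q * d)).Prime ∧ ∃ q' : ℕ, q'.Prime ∧ q ≤ q' ∧ a + k * (q * d) + 2 = q * q' := by
  classical
  obtain ⟨t, ht, c0, hc0, ρ, hρ, hd⟩ := dich 1
  obtain ⟨c, hc, C, hC, Q, hQp, hQc, hmain⟩ := thinFixed hc0 hρ hd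
  obtain ⟨cV, hcV, hV⟩ := VF_low 1
  set g : Fin 1 → ℤ := fun _ => -2 with hg
  have hadm : Adm 1 g 0 := by
    refine ⟨by simp [hg], ?_⟩
    intro q hq
    have h1 : (univ.image g : Finset ℤ) = {-2} := by
      ext a
      simp [hg]
    rw [h1]
    unfold rho
    rw [image_insert, image_singleton, Int.zero_emod]
    rcases hq.two_le.eq_or_lt with h2 | h2
    · rw [← h2]
      decide
    · exact lt_of_le_of_lt (card_insert_le _ _) (by simpa using h2)
  refine ⟨Q, C, hC, hQp, ?_, ?_⟩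
  · intro x hx
    obtain ⟨S, hS, hSc⟩ := hQc x hx
    have h1 : (Q ∩ Set.Iic x).ncard ≤ S.card := by
      rw [← Set.ncard_coe_finset]
      apply Set.ncard_le_ncard
      · rintro q ⟨hq, hqx⟩
        exact hS q hq hqx
      · exact finite_toSet S
    have h2 : ((Q ∩ Set.Iic x).ncard : ℝ) ≤ S.card := by exact_mod_cast h1
    exact h2.trans hSc
  intro l θ hθ
  obtain ⟨X₀, hX₀⟩ := hmain g 0 hadm θ hθ
  obtain ⟨D, X₁, hX₁⟩ := apClass l 1 t ht c θ hc hθ
  refine ⟨D, max (max X₀ X₁) 2, ?_⟩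
  intro N hN u v hv huv
  have n1 : X₀ ≤ N := le_trans (le_trans (le_max_left _ _) (le_max_left _ _)) hN
  have n2 : X₁ ≤ N := le_trans (le_trans (le_max_right _ _) (le_max_left _ _)) hN
  have n3 : 2 ≤ N := (le_max_right _ _).trans hN
  have hN0 : (0 : ℝ) < N := by exact_mod_cast (by omega : 0 < N)
  have huv0 : (0 : ℝ) < (v : ℝ) - u := lt_of_lt_of_le (by positivity) huv
  have hsys := hadm.sys (X := N) (by simp only [hg]; norm_num; omega)
  have hVp : 0 < VF (FT g) N := by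
    refine lt_of_lt_of_le ?_ (hV N n3 (FT g) hsys.card hsys.loc)
    have : 0 < Real.log N := Real.log_pos (by exact_mod_cast (by omega : 1 < N))
    positivity
  have hgood : ∀ p ∈ GoodF t N u v (FT g) (g 0), u < p ∧ p ≤ v ∧ p.Prime ∧ (g 0 - (p : ℤ)).natAbs = p + 2 ∧
      ∀ q : ℕ, q.Prime → q ∣ p + 2 → (N : ℝ) ^ (1 / 9 : ℝ) < q := by
    intro p hp
    unfold GoodF at hp
    rw [mem_filter, mem_Ioc] at hp
    obtain ⟨⟨p1, p2⟩, pp, pt, ⟨pr1, pr2, pr3⟩, pF⟩ := hp
    have hnat : (g 0 - (p : ℤ)).natAbs = p + 2 := by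
      simp only [hg]
      omega
    refine ⟨p1, p2, pp, hnat, ?_⟩
    intro q hq hd
    apply pr3 q hq
    rw [Int.natCast_dvd, hnat]
    exact hd
  rcases hX₀ N n1 u v hv huv with h | ⟨q, hq, h⟩
  · left
    obtain ⟨a, b, hb1, hb2, hab⟩ := hX₁ N n2 (FT g) (g 0) hsys u v hv huv 1 (by omega) (Or.inl rfl)
      (PF t N u v (FT g) (g 0)) (filter_subset _ _) ⟨0, fun p _ => Nat.mod_one p⟩ (by
        rw [Nat.cast_one, div_one]
        exact h)
    refine ⟨a, b, hb1, hb2, ?_⟩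
    intro k hk
    have h1 := hab k hk
    rw [one_mul] at h1
    unfold PF at h1
    rw [mem_filter] at h1
    obtain ⟨a1, a2, a3, a4, a5⟩ := hgood _ h1.1
    rw [a4] at h1
    exact ⟨a1, a2, a3, h1.2⟩
  · right
    have hqp := hQp q hq
    have hq0 : (0 : ℝ) < q := by exact_mod_cast hqp.pos
    have hRF : ∀ p ∈ RF t N u v (FT g) (g 0) q, u < p ∧ p ≤ v ∧ p.Prime ∧
        (∃ q' : ℕ, q'.Prime ∧ q ≤ q' ∧ p + 2 = q * q') ∧ (N : ℝ) ^ (1 / 9 : ℝ) < q := by
      intro p hp
      unfold RF at hp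
      rw [mem_filter] at hp
      obtain ⟨hp1, q', hq', hqq', hpq⟩ := hp
      obtain ⟨a1, a2, a3, a4, a5⟩ := hgood p hp1
      rw [a4] at hpq
      exact ⟨a1, a2, a3, ⟨q', hq', hqq', hpq⟩, a5 q hqp (by rw [hpq]; exact Dvd.intro _ rfl)⟩
    have hlow : 0 < c * (((v : ℝ) - u) * VF (FT g) N / q) := by positivity
    have hne : (RF t N u v (FT g) (g 0) q).Nonempty := by
      rw [← card_pos]
      exact_mod_cast lt_of_lt_of_le hlow h
    obtain ⟨p0, hp0⟩ := hne
    obtain ⟨b1, b2, b3, ⟨q', b4, b5, b6⟩, b7⟩ := hRF p0 hp0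
    have hqN : q ^ 2 ≤ N + 2 := by
      have h1 : q ^ 2 ≤ q * q' := by
        rw [pow_two]
        exact Nat.mul_le_mul_left _ b5
      omega
    obtain ⟨a, d, hd1, hd2, had⟩ := hX₁ N n2 (FT g) (g 0) hsys u v hv huv q (by omega) (Or.inr ⟨hqp, b7⟩)
      (RF t N u v (FT g) (g 0) q) (filter_subset _ _) ⟨p0 % q, fun p hp => by
        obtain ⟨_, _, _, ⟨q'', _, _, c6⟩, _⟩ := hRF p hp
        have h1 : p + 2 ≡ p0 + 2 [MOD q] := by
          rw [c6, b6]
          exact ((Nat.modEq_zero_iff_dvd).2 (Dvd.intro _ rfl)).trans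
            ((Nat.modEq_zero_iff_dvd).2 (Dvd.intro _ rfl)).symm
        exact Nat.ModEq.add_right_cancel' 2 h1⟩ h
    refine ⟨q, hq, b7, hqN, a, d, hd1, hd2, ?_⟩
    intro k hk
    obtain ⟨a1, a2, a3, a4, _⟩ := hRF _ (had k hk)
    exact ⟨a1, a2, a3, a4⟩

end Pool.Agent.Results.MP_a1f59e_nt.SameSmallFactor
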